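import Pool.Agent.V5helper73.GC.Stm2
import Pool.Agent.V5helper6.BM.GOL

/-! # Project GCH, job FAMH -/

set_option autoImplicit false
open Complex Metric Set Filter Topology MeasureTheory

namespace V5helper6.GC

open Pool.Agent.W677.Mar Pool.Agent.R250.MC

theorem re_exp_pos {d : ℂ} (hd : ‖d‖ ≤ 1) : 0 < (Complex.exp d).re := by
  have h1 := abs_le.1 ((Complex.abs_im_le_norm d).trans hd)
  have h2 := Real.pi_gt_three
  rw [Complex.exp_re]
  exact mul_pos (Real.exp_pos _) (Real.cos_pos_of_mem_Ioo ⟨by linarith, by linarith⟩)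

theorem eq_log {d : ℂ} (hd : ‖d‖ ≤ 1) : d = Complex.log (Complex.exp d) := by
  have h1 := abs_le.1 ((Complex.abs_im_le_norm d).trans hd)
  have h2 := Real.pi_gt_three
  rw [Complex.log_exp (by linarith) (by linarith)]

/-- a small logarithm is holomorphic -/
theorem small_log {d N : ℂ → ℂ} {U : Set ℂ} (hN : DifferentiableOn ℂ N U)
    (h : ∀ s ∈ U, Complex.exp (d s) = N s) (hd : ∀ s ∈ U, ‖d s‖ ≤ 1) : DifferentiableOn ℂ d U := by
  have h1 : DifferentiableOn ℂ (fun s => Complex.log (N s)) U := by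
    apply hN.clog
    intro s hs
    rw [← h s hs]
    exact Or.inl (re_exp_pos (hd s hs))
  refine h1.congr fun s hs => ?_
  show d s = Complex.log (N s)
  rw [← h s hs]
  exact eq_log (hd s hs)

theorem t_FAMH : V5helper73.GC.S_FAMH := by
  intro ψ h F
  have h00 : (0 : ℂ) ∈ ball (0 : ℂ) 1 := mem_ball_self one_pos
  obtain ⟨b, hb⟩ := F.2.2
  have hd0 : ∀ w : ℂ, 1 < ‖w‖ → deriv (ψ 0) w = 1 := by
    intro w hw
    have h1 : ψ 0 =ᶠ[𝓝 w] fun z => z + b := by
      filter_upwards [isOpen_ext.mem_nhds hw] with x hx using hb x hx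
    rw [h1.deriv_eq]
    simp
  have hexp : ∀ s ∈ ball (0 : ℂ) 1, ∀ z : ℂ, 1 < ‖z‖ → Complex.exp (h s z) = deriv (ψ s) z :=
    fun s hs z hz => (F.1 s (mem_ball_zero_iff.1 hs)).2.2.2.2.1 z hz
  -- induction
  have key : ∀ n : ℕ, ∀ ζ : ℂ, (3 / 4 : ℝ) ^ n * Real.log 2 ≤ ζ.re →
      DifferentiableOn ℂ (fun s => h s (Complex.exp ζ)) (ball 0 1) ∧ h 0 (Complex.exp ζ) = 0 := by
    intro n
    induction n with
    | zero =>
      intro ζ hζ
      rw [pow_zero, one_mul] at hζ
      have hz2 : 2 ≤ ‖Complex.exp ζ‖ := by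
        rw [Complex.norm_exp, ← Real.exp_log (show (0:ℝ) < 2 by norm_num)]
        exact Real.exp_le_exp.2 hζ
      have hz : 1 < ‖Complex.exp ζ‖ := by linarith
      have hsm : ∀ s ∈ ball (0 : ℂ) 1, ‖h s (Complex.exp ζ)‖ ≤ 1 := by
        intro s hs
        have h1 := goluzin_ext (F.1 s (mem_ball_zero_iff.1 hs)).sg hz rfl
        refine h1.trans ?_
        have h2 : 0 < ‖Complex.exp ζ‖ ^ 2 - 1 := by nlinarith
        have h3 : ‖Complex.exp ζ‖ ^ 2 / (‖Complex.exp ζ‖ ^ 2 - 1) ≤ 2 := by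
          rw [div_le_iff₀ h2]
          nlinarith
        calc Real.log (‖Complex.exp ζ‖ ^ 2 / (‖Complex.exp ζ‖ ^ 2 - 1)) ≤ Real.log 2 :=
              Real.log_le_log (by positivity) h3
          _ ≤ 1 := by
              have := Real.log_two_lt_d9
              linarith
      refine ⟨small_log (F.d1 hz) (fun s hs => hexp s hs _ hz) hsm, ?_⟩
      rw [eq_log (hsm 0 h00), hexp 0 h00 _ hz, hd0 _ hz, Complex.log_one]
    | succ n ih =>
      intro ζ hζ
      have hl2 : 0 < Real.log 2 := Real.log_pos (by norm_num)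
      have hy : 0 < ζ.re := lt_of_lt_of_le (by positivity) hζ
      set y := ζ.re with hydef
      obtain ⟨i1, i2⟩ := ih (ζ + ((y / 3 : ℝ) : ℂ)) (by
        rw [Complex.add_re, Complex.ofReal_re, ← hydef]
        rw [pow_succ] at hζ
        linarith)
      have hz : 1 < ‖Complex.exp ζ‖ := by
        rw [Complex.norm_exp]
        exact Real.one_lt_exp_iff.2 hy
      have hz' : 1 < ‖Complex.exp (ζ + ((y / 3 : ℝ) : ℂ))‖ := by
        rw [Complex.norm_exp, Complex.add_re, Complex.ofReal_re, ← hydef]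
        exact Real.one_lt_exp_iff.2 (by linarith)
      have hstep : ∀ s ∈ ball (0 : ℂ) 1,
          ‖h s (Complex.exp ζ) - h s (Complex.exp (ζ + ((y / 3 : ℝ) : ℂ)))‖ ≤ 1 := by
        intro s hs
        have h1 := Pool.Agent.V5helper6.BM.lip (ψ s) (h s) (F.1 s (mem_ball_zero_iff.1 hs)) y hy ζ
          (ζ + ((y / 3 : ℝ) : ℂ)) le_rfl (by
            rw [Complex.add_re, Complex.ofReal_re, ← hydef]
            linarith)
        refine h1.trans (le_of_eq ?_)
        rw [sub_add_cancel_left, norm_neg, Complex.norm_real, Real.norm_of_nonneg (by positivity)]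
        field_simp
      have hquot : ∀ s ∈ ball (0 : ℂ) 1,
          Complex.exp (h s (Complex.exp ζ) - h s (Complex.exp (ζ + ((y / 3 : ℝ) : ℂ)))) =
          deriv (ψ s) (Complex.exp ζ) / deriv (ψ s) (Complex.exp (ζ + ((y / 3 : ℝ) : ℂ))) := by
        intro s hs
        rw [Complex.exp_sub, hexp s hs _ hz, hexp s hs _ hz']
      have hdq : DifferentiableOn ℂ (fun s => deriv (ψ s) (Complex.exp ζ) /
          deriv (ψ s) (Complex.exp (ζ + ((y / 3 : ℝ) : ℂ)))) (ball 0 1) := by
        apply (F.d1 hz).div (F.d1 hz')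
        intro s hs
        rw [← hexp s hs _ hz']
        exact Complex.exp_ne_zero _
      have h1 := small_log hdq hquot hstep
      constructor
      · refine (h1.add i1).congr fun s _ => ?_
        show h s (Complex.exp ζ) = _ - _ + _
        ring
      · have h2 := eq_log (hstep 0 h00)
        rw [hquot 0 h00, hd0 _ hz, hd0 _ hz', div_one, Complex.log_one, i2, sub_zero] at h2
        exact h2
  intro z hz
  have hz0 : z ≠ 0 := by
    intro h0
    rw [h0, norm_zero] at hz
    linarith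
  have hl2 : 0 < Real.log 2 := Real.log_pos (by norm_num)
  have hlz : 0 < Real.log ‖z‖ := Real.log_pos hz
  obtain ⟨n, hn⟩ := exists_pow_lt_of_lt_one (div_pos hlz hl2) (show (3 / 4 : ℝ) < 1 by norm_num)
  rw [lt_div_iff₀ hl2] at hn
  have h1 := key n (Complex.log z) (by rw [Complex.log_re]; exact hn.le)
  rw [Complex.exp_log hz0] at h1
  exact h1

end V5helper6.GC
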