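import Pool.Agent.V5helper73.GC.Stm0

/-! # Project GC, job TOP -/

set_option autoImplicit false
open MeasureTheory Set

namespace V5helper6.GC

theorem dir_cover (m : ℕ) (hm : 0 < m) (z : ℂ) : ∃ r ∈ Finset.Icc (-(m:ℤ)) m,
    Real.cos (Real.pi / m) * ‖z‖ ≤
      (Complex.exp (-(((2 * Real.pi * r / m : ℝ) : ℂ) * Complex.I)) * z).re := by
  have hpi := Real.pi_pos
  have hm0 : (0:ℝ) < m := by exact_mod_cast hm
  have hm1 : (1:ℝ) ≤ m := by exact_mod_cast hm
  set α := Complex.arg z with hα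
  set t : ℝ := α * m / (2 * Real.pi) with ht
  have h1 : |t - round t| ≤ 1 / 2 := abs_sub_round t
  have hαle : |α| ≤ Real.pi := Complex.abs_arg_le_pi z
  have htle : |t| ≤ m / 2 := by
    rw [ht, abs_div, abs_mul, abs_of_pos hm0, abs_of_pos (by positivity : (0:ℝ) < 2 * Real.pi),
      div_le_div_iff₀ (by positivity) (by norm_num)]
    nlinarith
  refine ⟨round t, ?_, ?_⟩
  · rw [Finset.mem_Icc]
    have h2 := abs_le.1 h1
    have h3 := abs_le.1 htle
    constructor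
    · have : (-(m:ℝ)) ≤ (round t : ℝ) := by linarith
      exact_mod_cast this
    · have : ((round t : ℤ) : ℝ) ≤ (m:ℝ) := by linarith
      exact_mod_cast this
  · have hz : z = (‖z‖ : ℂ) * Complex.exp (α * Complex.I) := (Complex.norm_mul_exp_arg_mul_I z).symm
    have h4 : Complex.exp (-(((2 * Real.pi * (round t) / m : ℝ) : ℂ) * Complex.I)) * z
        = (‖z‖ : ℂ) * Complex.exp (((α - 2 * Real.pi * (round t) / m : ℝ) : ℂ) * Complex.I) := by
      have e1 : (((α - 2 * Real.pi * (round t) / m : ℝ) : ℂ) * Complex.I)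
          = -(((2 * Real.pi * (round t) / m : ℝ) : ℂ) * Complex.I) + (α : ℂ) * Complex.I := by
        rw [Complex.ofReal_sub]
        ring
      rw [e1, Complex.exp_add]
      conv_lhs => rw [hz]
      ring
    rw [h4, Complex.re_ofReal_mul, Complex.exp_ofReal_mul_I_re, mul_comm]
    apply mul_le_mul_of_nonneg_left _ (norm_nonneg z)
    rw [← Real.cos_abs (α - _)]
    apply Real.cos_le_cos_of_nonneg_of_le_pi (abs_nonneg _)
    · rw [div_le_iff₀ hm0]
      nlinarith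
    · have e2 : α - 2 * Real.pi * (round t) / m = (t - round t) * (2 * Real.pi / m) := by
        rw [ht]
        field_simp
      rw [e2, abs_mul, abs_of_pos (by positivity : (0:ℝ) < 2 * Real.pi / m)]
      calc |t - round t| * (2 * Real.pi / m) ≤ 1 / 2 * (2 * Real.pi / m) :=
            mul_le_mul_of_nonneg_right h1 (by positivity)
        _ = Real.pi / m := by ring

theorem exists_m (a u : ℝ) (h : a * (1 + Real.sqrt (1 - u ^ 2)) < 1) : ∃ m : ℕ, 3 ≤ m ∧
    a * (1 + Real.sqrt (1 - Real.cos (Real.pi / m) ^ 2 * u ^ 2)) < Real.cos (Real.pi / m) ^ 2 := by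
  have hlim : Filter.Tendsto (fun m : ℕ => Real.pi / (m:ℝ)) Filter.atTop (nhds 0) :=
    tendsto_const_div_atTop_nhds_zero_nat Real.pi
  have hcont : Continuous (fun x : ℝ => Real.cos x ^ 2 -
      a * (1 + Real.sqrt (1 - Real.cos x ^ 2 * u ^ 2))) := by fun_prop
  have h2 := (hcont.tendsto 0).comp hlim
  have h3 : 0 < Real.cos 0 ^ 2 - a * (1 + Real.sqrt (1 - Real.cos 0 ^ 2 * u ^ 2)) := by
    rw [Real.cos_zero]
    simp only [one_pow, one_mul]
    linarith
  have h4 := h2.eventually (lt_mem_nhds h3)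
  obtain ⟨m, hm, hm3⟩ := (h4.and (Filter.eventually_ge_atTop 3)).exists
  refine ⟨m, hm3, ?_⟩
  simp only [Function.comp_apply] at hm
  linarith

theorem vol_le {m : ℕ} (hm : 3 ≤ m) {C₀ L : ℝ} {f : ℝ → ℂ} (hL : 0 < L)
    (hT : ∀ φ x : ℝ, 0 ≤ x → x ≤ L →
      volume {θ : ℝ | θ ∈ Ioc 0 (2 * Real.pi) ∧ x ≤ (Complex.exp (-(φ * Complex.I)) * f θ).re} ≤
        ENNReal.ofReal (C₀ * Real.exp (-(L - Real.sqrt (L ^ 2 - x ^ 2)))))
    {w : ℝ} (hw0 : 0 ≤ w) (hw1 : w ≤ 1) :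
    volume {θ : ℝ | θ ∈ Ioc 0 (2 * Real.pi) ∧ w * L ≤ ‖f θ‖} ≤
      (2 * m + 1 : ℕ) * ENNReal.ofReal (C₀ * Real.exp (-(L * (1 -
        Real.sqrt (1 - Real.cos (Real.pi / m) ^ 2 * w ^ 2))))) := by
  have hpi := Real.pi_pos
  have hm3 : (3:ℝ) ≤ m := by exact_mod_cast hm
  have hm0 : (0:ℝ) < m := by linarith
  set c := Real.cos (Real.pi / m) with hc
  have hc0 : 0 ≤ c := by
    apply Real.cos_nonneg_of_neg_pi_div_two_le_of_le
    · have : 0 < Real.pi / m := by positivity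
      linarith
    · rw [div_le_div_iff₀ hm0 (by norm_num)]
      nlinarith
  have hc1 : c ≤ 1 := Real.cos_le_one _
  have hx0 : 0 ≤ c * w * L := by positivity
  have hx1 : c * w * L ≤ L := by
    have : c * w ≤ 1 := mul_le_one₀ hc1 hw0 hw1
    nlinarith
  have hsub : {θ : ℝ | θ ∈ Ioc 0 (2 * Real.pi) ∧ w * L ≤ ‖f θ‖} ⊆
      ⋃ r ∈ Finset.Icc (-(m:ℤ)) m, {θ : ℝ | θ ∈ Ioc 0 (2 * Real.pi) ∧ c * w * L ≤
        (Complex.exp (-(((2 * Real.pi * r / m : ℝ) : ℂ) * Complex.I)) * f θ).re} := by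
    rintro θ ⟨hθ, hθ2⟩
    obtain ⟨r, hr, hr2⟩ := dir_cover m (by omega) (f θ)
    simp only [mem_iUnion, mem_setOf_eq]
    refine ⟨r, hr, hθ, le_trans ?_ hr2⟩
    rw [mul_assoc]
    exact mul_le_mul_of_nonneg_left hθ2 hc0
  have hexp : Real.sqrt (L ^ 2 - (c * w * L) ^ 2) = L * Real.sqrt (1 - c ^ 2 * w ^ 2) := by
    have : L ^ 2 - (c * w * L) ^ 2 = L ^ 2 * (1 - c ^ 2 * w ^ 2) := by ring
    rw [this, Real.sqrt_mul (by positivity), Real.sqrt_sq hL.le]
  calc volume {θ : ℝ | θ ∈ Ioc 0 (2 * Real.pi) ∧ w * L ≤ ‖f θ‖}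
      ≤ volume (⋃ r ∈ Finset.Icc (-(m:ℤ)) m, {θ : ℝ | θ ∈ Ioc 0 (2 * Real.pi) ∧ c * w * L ≤
        (Complex.exp (-(((2 * Real.pi * r / m : ℝ) : ℂ) * Complex.I)) * f θ).re}) :=
        measure_mono hsub
    _ ≤ ∑ r ∈ Finset.Icc (-(m:ℤ)) m, volume {θ : ℝ | θ ∈ Ioc 0 (2 * Real.pi) ∧ c * w * L ≤
        (Complex.exp (-(((2 * Real.pi * r / m : ℝ) : ℂ) * Complex.I)) * f θ).re} :=
        measure_biUnion_finset_le _ _
    _ ≤ ∑ _r ∈ Finset.Icc (-(m:ℤ)) m, ENNReal.ofReal (C₀ * Real.exp (-(L -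
        Real.sqrt (L ^ 2 - (c * w * L) ^ 2)))) :=
        Finset.sum_le_sum (fun r _ => hT _ _ hx0 hx1)
    _ = (2 * m + 1 : ℕ) * ENNReal.ofReal (C₀ * Real.exp (-(L * (1 -
        Real.sqrt (1 - c ^ 2 * w ^ 2))))) := by
        rw [Finset.sum_const, nsmul_eq_mul, hexp, Int.card_Icc]
        congr 1
        · congr 1
          omega
        · congr 3
          ring

/-- the main inequality -/
theorem key {a u c w : ℝ} (hu0 : 0 ≤ u) (huw : u ≤ w) (hw1 : w ≤ 1) (hc0 : 0 ≤ c) (hc1 : c ≤ 1) :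
    a * w ^ 2 - (1 - Real.sqrt (1 - c ^ 2 * w ^ 2)) ≤
      -((c ^ 2 / (1 + Real.sqrt (1 - c ^ 2 * u ^ 2)) - a) * w ^ 2) := by
  have hw0 : 0 ≤ w := hu0.trans huw
  have hcw : c ^ 2 * w ^ 2 ≤ 1 := by
    rw [← mul_pow]
    exact pow_le_one₀ (by positivity) (mul_le_one₀ hc1 hw0 hw1)
  set y := Real.sqrt (1 - c ^ 2 * w ^ 2) with hy
  set z := Real.sqrt (1 - c ^ 2 * u ^ 2) with hz
  have hy0 : 0 ≤ y := Real.sqrt_nonneg _
  have hz0 : 0 ≤ z := Real.sqrt_nonneg _
  have hy2 : y ^ 2 = 1 - c ^ 2 * w ^ 2 := Real.sq_sqrt (by linarith)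
  have hyz : y ≤ z := by
    apply Real.sqrt_le_sqrt
    have : c ^ 2 * u ^ 2 ≤ c ^ 2 * w ^ 2 :=
      mul_le_mul_of_nonneg_left (pow_le_pow_left₀ hu0 huw 2) (by positivity)
    linarith
  have hy1 : y ≤ 1 := by
    have : 0 ≤ c ^ 2 * w ^ 2 := by positivity
    exact Real.sqrt_le_one.2 (by linarith)
  have h1 : c ^ 2 * w ^ 2 / (1 + z) ≤ 1 - y := by
    rw [div_le_iff₀ (by linarith)]
    nlinarith
  have h2 : c ^ 2 / (1 + z) * w ^ 2 = c ^ 2 * w ^ 2 / (1 + z) := by ring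
  rw [sub_mul, h2]
  linarith

theorem t_TOP : V5helper73.GC.S_TOP := by
  intro a u C₀ ha hu0 hu1 hC h
  obtain ⟨m, hm, hmc⟩ := exists_m a u h
  have hpi := Real.pi_pos
  have hm3 : (3:ℝ) ≤ m := by exact_mod_cast hm
  have hm0 : (0:ℝ) < m := by linarith
  have hc0 : 0 ≤ Real.cos (Real.pi / m) := by
    apply Real.cos_nonneg_of_neg_pi_div_two_le_of_le
    · have : 0 < Real.pi / m := by positivity
      linarith
    · rw [div_le_div_iff₀ hm0 (by norm_num)]
      nlinarith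
  have hc1 : Real.cos (Real.pi / m) ≤ 1 := Real.cos_le_one _
  set c := Real.cos (Real.pi / m) with hc
  set δ : ℝ := c ^ 2 / (1 + Real.sqrt (1 - c ^ 2 * u ^ 2)) - a with hδ
  have hδ0 : 0 < δ := by
    rw [hδ, sub_pos, lt_div_iff₀ (by positivity)]
    exact hmc
  set D : ℝ := Real.exp a * ((2 * m + 1 : ℕ) * C₀) with hD
  have hD0 : 0 ≤ D := by positivity
  have hr0 : 0 ≤ Real.exp (-δ) := (Real.exp_pos _).le
  have hr1 : Real.exp (-δ) < 1 := by
    rw [Real.exp_lt_one_iff]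
    linarith
  refine ⟨D * (1 - Real.exp (-δ))⁻¹, ?_⟩
  intro L f hL hf hfL hT
  have hFc : Continuous (fun θ => Real.exp (a * ‖f θ‖ ^ 2 / L)) := by fun_prop
  set E : Set ℝ := {θ : ℝ | θ ∈ Ioc 0 (2 * Real.pi) ∧ u * L ≤ ‖f θ‖} with hE
  have hEm : MeasurableSet E := by
    apply measurableSet_Ioc.inter
    exact measurableSet_le measurable_const hf.norm.measurable
  set Ek : ℕ → Set ℝ := fun k => {θ : ℝ | θ ∈ E ∧ (k:ℝ) ≤ ‖f θ‖ ^ 2 / L} with hEk
  have hEkm : ∀ k, MeasurableSet (Ek k) := by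
    intro k
    apply hEm.inter
    exact measurableSet_le measurable_const ((hf.norm.pow 2).div_const L).measurable
  rw [integral_eq_lintegral_of_nonneg_ae (Filter.Eventually.of_forall
    fun θ => (Real.exp_pos _).le) hFc.aestronglyMeasurable]
  have hmain : ∀ k : ℕ, ENNReal.ofReal (Real.exp (a * (k + 1))) * volume (Ek k) ≤
      ENNReal.ofReal (D * Real.exp (-δ) ^ k) := by
    intro k
    by_cases hk : (k:ℝ) ≤ L
    · set w : ℝ := max u (Real.sqrt (k / L)) with hw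
      have huw : u ≤ w := le_max_left _ _
      have hkL1 : (k:ℝ) / L ≤ 1 := (div_le_one hL).2 hk
      have hkL0 : 0 ≤ (k:ℝ) / L := by positivity
      have hw1 : w ≤ 1 := max_le hu1 (Real.sqrt_le_one.2 hkL1)
      have hw0 : 0 ≤ w := hu0.trans huw
      have hwk : (k:ℝ) ≤ w ^ 2 * L := by
        have h1 : (k:ℝ) / L ≤ w ^ 2 := by
          calc (k:ℝ) / L = Real.sqrt (k / L) ^ 2 := (Real.sq_sqrt hkL0).symm
            _ ≤ w ^ 2 := pow_le_pow_left₀ (Real.sqrt_nonneg _) (le_max_right _ _) 2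
        rwa [div_le_iff₀ hL] at h1
      have hsub : Ek k ⊆ {θ : ℝ | θ ∈ Ioc 0 (2 * Real.pi) ∧ w * L ≤ ‖f θ‖} := by
        rintro θ ⟨⟨h1, h2⟩, h3⟩
        refine ⟨h1, ?_⟩
        rw [hw, max_mul_of_nonneg _ _ hL.le]
        refine max_le h2 ?_
        rw [← le_div_iff₀ hL]
        apply Real.sqrt_le_iff.2
        refine ⟨by positivity, ?_⟩
        rw [div_pow, div_le_div_iff₀ hL (by positivity)]
        rw [le_div_iff₀ hL] at h3
        nlinarith
      have h4 := (measure_mono hsub).trans (vol_le hm hL hT hw0 hw1)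
      rw [← hc] at h4
      have h5 := key (a := a) hu0 huw hw1 hc0 hc1
      rw [← hδ] at h5
      calc ENNReal.ofReal (Real.exp (a * (k + 1))) * volume (Ek k)
          ≤ ENNReal.ofReal (Real.exp (a * (k + 1))) * ((2 * m + 1 : ℕ) *
            ENNReal.ofReal (C₀ * Real.exp (-(L * (1 - Real.sqrt (1 - c ^ 2 * w ^ 2)))))) :=
            mul_le_mul_right h4 _
        _ = ENNReal.ofReal (Real.exp (a * (k + 1)) * ((2 * m + 1 : ℕ) *
            (C₀ * Real.exp (-(L * (1 - Real.sqrt (1 - c ^ 2 * w ^ 2))))))) := by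
            rw [ENNReal.ofReal_mul (Real.exp_pos _).le,
              ENNReal.ofReal_mul (p := ((2 * m + 1 : ℕ) : ℝ)) (Nat.cast_nonneg _),
              ENNReal.ofReal_natCast]
        _ ≤ ENNReal.ofReal (D * Real.exp (-δ) ^ k) := by
            apply ENNReal.ofReal_le_ofReal
            have e1 : Real.exp (a * (k + 1)) * ((2 * m + 1 : ℕ) *
                (C₀ * Real.exp (-(L * (1 - Real.sqrt (1 - c ^ 2 * w ^ 2))))))
                = D * Real.exp (a * k - L * (1 - Real.sqrt (1 - c ^ 2 * w ^ 2))) := by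
              generalize L * (1 - Real.sqrt (1 - c ^ 2 * w ^ 2)) = B
              rw [hD, sub_eq_add_neg, Real.exp_add, mul_add, Real.exp_add, mul_one]
              ring
            rw [e1, ← Real.exp_nat_mul]
            apply mul_le_mul_of_nonneg_left _ hD0
            apply Real.exp_le_exp.2
            have h6 : a * k ≤ a * (w ^ 2 * L) := mul_le_mul_of_nonneg_left hwk ha.le
            have h7 : L * (a * w ^ 2 - (1 - Real.sqrt (1 - c ^ 2 * w ^ 2))) ≤
                L * (-(δ * w ^ 2)) := mul_le_mul_of_nonneg_left h5 hL.le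
            have h8 : δ * k ≤ δ * (w ^ 2 * L) := mul_le_mul_of_nonneg_left hwk hδ0.le
            nlinarith
    · have hempty : Ek k = ∅ := by
        ext θ
        simp only [hEk, mem_setOf_eq, mem_empty_iff_false, iff_false, not_and]
        intro _ h3
        apply hk
        refine h3.trans ?_
        rw [div_le_iff₀ hL]
        have := hfL θ
        nlinarith [norm_nonneg (f θ)]
      rw [hempty]
      simp
  apply ENNReal.toReal_le_of_le_ofReal
    (mul_nonneg hD0 (inv_nonneg.2 (by linarith)))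
  calc ∫⁻ θ in E, ENNReal.ofReal (Real.exp (a * ‖f θ‖ ^ 2 / L))
      ≤ ∫⁻ θ in E, ∑' k : ℕ,
        (Ek k).indicator (fun _ => ENNReal.ofReal (Real.exp (a * (k + 1)))) θ := by
        apply setLIntegral_mono' hEm
        intro θ hθ
        have hg0 : 0 ≤ ‖f θ‖ ^ 2 / L := by positivity
        have hmem : θ ∈ Ek ⌊‖f θ‖ ^ 2 / L⌋₊ := ⟨hθ, Nat.floor_le hg0⟩
        refine le_trans ?_ (ENNReal.le_tsum ⌊‖f θ‖ ^ 2 / L⌋₊)
        rw [indicator_of_mem hmem]
        apply ENNReal.ofReal_le_ofReal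
        apply Real.exp_le_exp.2
        rw [mul_div_assoc]
        exact mul_le_mul_of_nonneg_left (Nat.lt_floor_add_one _).le ha.le
    _ ≤ ∫⁻ θ, ∑' k : ℕ,
        (Ek k).indicator (fun _ => ENNReal.ofReal (Real.exp (a * (k + 1)))) θ :=
        setLIntegral_le_lintegral _ _
    _ = ∑' k : ℕ, ∫⁻ θ,
        (Ek k).indicator (fun _ => ENNReal.ofReal (Real.exp (a * (k + 1)))) θ :=
        lintegral_tsum (fun k => (measurable_const.indicator (hEkm k)).aemeasurable)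
    _ = ∑' k : ℕ, ENNReal.ofReal (Real.exp (a * (k + 1))) * volume (Ek k) := by
        congr 1
        ext k
        rw [lintegral_indicator_const (hEkm k)]
    _ ≤ ∑' k : ℕ, ENNReal.ofReal (D * Real.exp (-δ) ^ k) := ENNReal.tsum_le_tsum hmain
    _ = ENNReal.ofReal (∑' k : ℕ, D * Real.exp (-δ) ^ k) :=
        (ENNReal.ofReal_tsum_of_nonneg (fun k => by positivity)
          ((summable_geometric_of_lt_one hr0 hr1).mul_left D)).symm
    _ = ENNReal.ofReal (D * (1 - Real.exp (-δ))⁻¹) := by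
        rw [tsum_mul_left, tsum_geometric_of_lt_one hr0 hr1]

end V5helper6.GC
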